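import Pool.Agent.Y481.DX.Defs
import Pool.Agent.Y304.PH.Xlx
import Pool.Agent.Y710.DR.Core
import Pool.Agent.Y784.PH.ELX
import Pool.Agent.Y710.PH.WX
import Pool.Agent.Y710.PH.LOCN
import Pool.Agent.Y419.PH.Kxc3
import Pool.Agent.Y304.PH.Kxr3
import Pool.Agent.Y814.PH.Emt
import Pool.Agent.Y852.PH.KLog3
import Pool.Agent.Y641.CB.SD3

/-!
# DX-XLXF: expansion of the decorated integral near `χ = 0`

Model: `Pool.Agent.Y304.PH.Xlx` and `Pool.Agent.Y710.DR.Core`.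
-/

set_option autoImplicit false
set_option linter.all false

namespace Pool.Agent.Y430.DX

open Finset Filter Topology Metric
open Pool.Agent.W711.HT hiding XX
open Pool.Agent.Y472
open Pool.Agent.Y481 (itI itN itG Sep wts cw LI LN)
open Pool.Agent.Y481.DR
open Pool.Agent.Y481.DX
open Pool.Agent.W719.AX (UX EXY Rl ig cv)
open Pool.Agent.Y482.Ph (EXL GXc KXD3 kx3 S_LOCN S_ELX S_WX)
open Pool.Agent.Y674.CB (rc_open rc_mono rc_norm rc_zero rc_neg bx_mono pot_mono s_diff3 Dr_mid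
  Dr_last fW fW_sep fW_eq Wk_sep itG_congr SJ)
open Pool.Agent.Y304.PH (itN_smul exp_small)
open Pool.Agent.Y710.DR (YP_sep YP_congr DrF_last DrF_mid)
open scoped Real

/-! ### Products of expansions -/

lemma exl_mul {L : ℕ} {r : ℝ} {f g : ℕ → (ℕ → ℂ) → ℂ} {Φ Ψ : (ℕ → ℂ) → ℂ}
    (hf : EXL L r f Φ) (hg : EXL L r g Ψ) :
    EXL L r (fun N ψ => f N ψ * g N ψ) (fun ψ => Φ ψ + Ψ ψ) := by
  obtain ⟨A, c₁, hc1, hA, hA0, hAd⟩ := hf
  obtain ⟨B, c₂, hc2, hB, hB0, hBd⟩ := hg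
  refine ⟨cv A B, c₁ * c₂, mul_pos hc1 hc2, ?_, ?_, ?_⟩
  · have h := Pool.Agent.W303.AX.uxmul _ _ _ _ _ _ hA hB
    have e : (fun (N : ℕ) (ψ : ℕ → ℂ) => Complex.exp (-(N * (Φ ψ + Ψ ψ))) * (f N ψ * g N ψ)) =
        fun (N : ℕ) (ψ : ℕ → ℂ) => Complex.exp (-(N * Φ ψ)) * f N ψ * (Complex.exp (-(N * Ψ ψ)) * g N ψ) := by
      funext N ψ
      rw [show -((N : ℂ) * (Φ ψ + Ψ ψ)) = -(N * Φ ψ) + -(N * Ψ ψ) by ring, Complex.exp_add]
      ring
    rw [e]
    exact h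
  · intro ψ hψ
    have e : cv A B 0 ψ = A 0 ψ * B 0 ψ := by unfold cv; simp
    rw [e, norm_mul]
    exact mul_le_mul (hA0 ψ hψ) (hB0 ψ hψ) hc2.le (norm_nonneg _)
  · intro k ψ hψ i hi
    have e : (fun w => cv A B k (Function.update ψ i w)) = fun w =>
        ∑ l ∈ range (k + 1), A l (Function.update ψ i w) * B (k - l) (Function.update ψ i w) := rfl
    rw [e]
    exact DifferentiableOn.fun_sum fun l _ => (hAd l ψ hψ i hi).mul (hBd (k - l) ψ hψ i hi)

lemma exl_var {L : ℕ} {r R₀ B : ℝ} (hr : r ≤ R₀) {Y : ℕ → ℂ → ℂ} {F : ℂ → ℂ} {A : ℕ → ℂ → ℂ}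
    (h : DGX R₀ B Y F A) {j : ℕ} (hj : j < L) :
    EXL L r (fun N ψ => Y N (ψ j)) (fun ψ => F (ψ j)) := by
  obtain ⟨c₁, hc1, hnz⟩ := h.nz
  refine ⟨fun k ψ => A k (ψ j), c₁, hc1, ?_, ?_, ?_⟩
  · exact Pool.Agent.Y710.PH.ux_comp h.ux (fun ψ : ℕ → ℂ => ψ j) fun ψ hψ => rc_mono hr (hψ j hj)
  · intro ψ hψ
    exact hnz _ (rc_mono hr (hψ j hj))
  · intro k ψ hψ i hi
    by_cases hij : i = j
    · subst hij
      simp only [Function.update_self]
      exact (h.an k).mono (rc_mono hr)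
    · have e : (fun w => A k (Function.update ψ i w j)) = fun _ => A k (ψ j) := by
        funext w
        rw [Function.update_of_ne (Ne.symm hij)]
      rw [e]
      exact differentiableOn_const _

lemma exl_one (L : ℕ) (r : ℝ) : EXL L r (fun _ _ => 1) (fun _ => 0) := by
  refine ⟨fun k _ => if k = 0 then 1 else 0, 1, one_pos, ?_, ?_, ?_⟩
  · have h := Pool.Agent.Y710.PH.ux_one (Bx L r)
    have e : (fun (N : ℕ) (_ : ℕ → ℂ) => Complex.exp (-((N : ℂ) * 0)) * 1) = fun _ _ => 1 := by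
      funext N ψ
      simp
    rw [e]
    exact h
  · intro ψ _
    simp
  · intro k ψ _ i _
    exact differentiableOn_const _

lemma exl_prod {L n : ℕ} {r R₀ B : ℝ} (hr : r ≤ R₀) (hn : n ≤ L) {Y : ℕ → ℕ → ℂ → ℂ}
    {F : ℕ → ℂ → ℂ} {An : ℕ → ℕ → ℂ → ℂ} (h : ∀ j < n, DGX R₀ B (Y j) (F j) (An j)) :
    ∀ m ≤ n, EXL L r (fun N ψ => ∏ j ∈ range m, Y j N (ψ j))
      (fun ψ => ∑ j ∈ range m, F j (ψ j)) := by
  intro m
  induction m with
  | zero =>
    intro _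
    simp only [range_zero, prod_empty, sum_empty]
    exact exl_one L r
  | succ m ih =>
    intro hm
    have h1 := exl_mul (ih (by omega)) (exl_var (L := L) hr (h m (by omega)) (by omega : m < L))
    simp only [prod_range_succ, sum_range_succ]
    exact h1

/-- the expansion of the decorated kernel of the ring -/
lemma wxf {ρ₀ c C : ℝ} {s dl : ℂ → ℂ → ℂ → ℂ} (hS : SD3 ρ₀ c C s dl) {ρ₂ : ℝ}
    {A₂ : ℕ → ℂ × ℂ × ℂ → ℂ} (hρ2 : ρ₂ ≤ ρ₀) (hK : KXD3 ρ₂ s A₂) {n : ℕ} (hn : 2 ≤ n)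
    {ls : List (Vx × Vx)} (hls : 2 * ls.length = n) {Rd Bd : ℝ} {F : ℕ → ℂ → ℂ}
    {An : ℕ → ℕ → ℂ → ℂ} (hD : ∀ j < n, DGX Rd Bd (vy ls j) (F j) (An j)) {r : ℝ} (hr : 0 < r)
    (hr2 : r ≤ ρ₂) (hr3 : r ≤ Rd) :
    EXL (n + 1) r (fun N ψ => (Real.sqrt N : ℂ) ^ n * Wk n N (ψ n) ψ * YP ls N ψ)
      (SrF s F n) := by
  have h1 := Pool.Agent.Y710.PH.wx ρ₀ c C s dl hS ρ₂ A₂ hρ2 hK n hn r hr hr2
  have h2 := exl_prod (L := n + 1) hr3 (by omega) hD n le_rfl
  have h3 := exl_mul h1 h2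
  unfold YP
  rw [hls]
  exact h3

lemma fF_sep {n : ℕ} (hn : 1 ≤ n) {ls : List (Vx × Vx)} (hls : 2 * ls.length = n)
    (hY : ∀ j < n, ∀ N, Differentiable ℂ (vy ls j N)) (N : ℕ) :
    Sep (n + 1) (fun ψ => fW n N ψ * YP ls N ψ) :=
  (fW_sep hn N).mul (YP_sep (by omega) (by rw [hls]; exact hY) N)

lemma fF_eq {n N : ℕ} {χ : ℂ} {ls : List (Vx × Vx)} (hls : 2 * ls.length = n) (ψ ψ' : ℕ → ℂ)
    (h : ψ n = χ) (h' : ∀ i < n, ψ i = ψ' i) :
    fW n N ψ * YP ls N ψ = Wk n N χ ψ' * YP ls N ψ' := by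
  rw [fW_eq ψ ψ' h h', YP_congr (ls := ls) (ψ := ψ) (ψ' := ψ') (by rw [hls]; exact h')]

/-- the expansion of the kernel -/
theorem kxd : ∀ (ρ₀ c C : ℝ) (s dl : ℂ → ℂ → ℂ → ℂ), SD3 ρ₀ c C s dl →
    ∃ (ρ₂ : ℝ) (A : ℕ → ℂ × ℂ × ℂ → ℂ), ρ₂ ≤ ρ₀ ∧ KXD3 ρ₂ s A :=
  Pool.Agent.Y419.PH.kxc3 Pool.Agent.Y304.PH.kxr3
    Pool.Agent.Y814.PH.Emt.emt Pool.Agent.Y852.PH.KLog3.klog3

/-- XLXF: expansion of `XV` near `χ = 0` -/
theorem xlxf : S_XLXF := by
  intro hPOT
  obtain ⟨ρ₀, c, C, s, dl, hS⟩ := Pool.Agent.Y641.CB.sd3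
  refine ⟨ρ₀, c, C, s, dl, hS, ?_⟩
  intro Rd Bd hRd hBd k hk
  obtain ⟨ρ₂, A₂, hρ2, hKX⟩ := kxd ρ₀ c C s dl hS
  have hELX : S_ELX := Pool.Agent.Y784.PH.elx
  have hLOC : S_LOCN := Pool.Agent.Y710.PH.locn
  have hρ2p := hKX.hρ
  have hKB : S_KB3 := Pool.Agent.Y288.CB.kb3 Pool.Agent.Y288.CB.tb0 Pool.Agent.Y105.CB.rho
  have hJ : SJ ρ₀ s := hS.san
  obtain ⟨⟨ρs, hρs, hρs1, HK⟩, _⟩ := hKB
  obtain ⟨n, hn⟩ : ∃ n, n = 2 * k := ⟨_, rfl⟩
  have hn2 : 2 ≤ n := by omega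
  have hnR : (0 : ℝ) < n := by exact_mod_cast (by omega : 0 < n)
  obtain ⟨R₀, c₀, B₀, hR0, hR00, hR0d, hc0, hB0, hPn⟩ :=
    hPOT ρ₀ c C s dl hS Rd Bd hRd hBd n hn2
  obtain ⟨R₁, hR1, hR10, hR1ρ, hR11⟩ : ∃ R₁ : ℝ, 0 < R₁ ∧ R₁ ≤ R₀ ∧ R₁ ≤ ρ₂ ∧ R₁ ≤ 1 :=
    ⟨min (min R₀ ρ₂) 1, lt_min (lt_min hR0 hρ2p) one_pos,
      (min_le_left _ _).trans (min_le_left _ _), (min_le_left _ _).trans (min_le_right _ _),
      min_le_right _ _⟩
  obtain ⟨C₁, M₁, hC1, hM1, HCR⟩ := Pool.Agent.Y784.CB.cr (n + 1) R₁ c₀ B₀ (bet / 2)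
  obtain ⟨M₂, hM2, HEL⟩ := hELX hLOC (n + 1) R₁ c₀ B₀ (bet / 2) C₁ hC1
  have hc1 : 0 < c1 := by
    have := Real.pi_pos
    unfold c1
    positivity
  obtain ⟨r, hr⟩ : ∃ r : ℝ, r = R₁ / 8 := ⟨_, rfl⟩
  have hr0 : 0 < r := by rw [hr]; positivity
  obtain ⟨κ, hκ⟩ : ∃ κ : ℝ, κ = c1 * min r ρs ^ 2 := ⟨_, rfl⟩
  have hκ0 : 0 < κ := by
    rw [hκ]
    exact mul_pos hc1 (pow_pos (lt_min hr0 hρs) _)
  obtain ⟨τ, hτ, HKε⟩ := HK (κ / (8 * n)) (by positivity)
  have hρ0 := hS.hρ.1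
  obtain ⟨R₃, hR3, hs3⟩ : ∃ R₃ : ℝ, 0 < R₃ ∧ ∀ χ ∈ Rc R₃ R₃,
      ‖s 0 0 χ - ((2 * bet : ℝ) : ℂ)‖ ≤ κ / (8 * n) := by
    have hd : ContinuousAt (fun w => s 0 0 w) 0 :=
      (s_diff3 hS (rc_zero hρ0) (rc_zero hρ0) (rc_zero hρ0)).continuousAt
    rw [Metric.continuousAt_iff] at hd
    obtain ⟨δ, hδ, hδ2⟩ := hd (κ / (8 * n)) (by positivity)
    refine ⟨δ / 2, by positivity, fun χ hχ => ?_⟩
    have h1 : dist χ 0 < δ := by
      rw [dist_zero_right]
      have h2 := Complex.norm_le_abs_re_add_abs_im χ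
      have h3 := hχ.1
      have h4 := hχ.2
      linarith
    have h2 := hδ2 h1
    rw [dist_eq_norm, hS.zero] at h2
    exact h2.le
  -- the radius
  obtain ⟨R, hR, hRR1, hRR3, hRτ, hR_1, hRπ⟩ : ∃ R : ℝ, 0 < R ∧ R ≤ R₁ / 4 ∧ R ≤ R₃ / 2 ∧ R ≤ τ ∧
      R ≤ 1 ∧ R ≤ ρ₀ := by
    refine ⟨min (min (R₁ / 4) (R₃ / 2)) (min τ (min 1 ρ₀)), ?_, ?_, ?_, ?_, ?_, ?_⟩
    · exact lt_min (lt_min (by positivity) (by positivity)) (lt_min hτ (lt_min one_pos hρ0))
    · exact (min_le_left _ _).trans (min_le_left _ _)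
    · exact (min_le_left _ _).trans (min_le_right _ _)
    · exact (min_le_right _ _).trans (min_le_left _ _)
    · exact (min_le_right _ _).trans ((min_le_right _ _).trans (min_le_left _ _))
    · exact (min_le_right _ _).trans ((min_le_right _ _).trans (min_le_right _ _))
  refine ⟨R, c₀ / 2, hR, hR_1, hRπ, by linarith, by positivity, B₀ + n * C₁, n * C₁,
    M₁ + M₂ + 1 + 10 * C₁ + 4 * C₁ / R + 8 * n * C₁ / κ, by positivity, by positivity,
    by positivity, ?_⟩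
  obtain ⟨M, hM⟩ : ∃ M : ℝ, M = M₁ + M₂ + 1 + 10 * C₁ + 4 * C₁ / R + 8 * n * C₁ / κ := ⟨_, rfl⟩
  rw [← hM]
  have p1 : 0 < 4 * C₁ / R := by positivity
  have p2 : 0 < 8 * n * C₁ / κ := by positivity
  have hM_1 : M₁ ≤ M := by rw [hM]; linarith
  have hM_2 : M₂ ≤ M := by rw [hM]; linarith
  have hM_3 : 1 ≤ M := by rw [hM]; linarith
  have hM_4 : 10 * C₁ ≤ M := by rw [hM]; linarith
  have hM_5 : 4 * C₁ / R ≤ M := by rw [hM]; linarith
  have hM_6 : 8 * n * C₁ / κ ≤ M := by rw [hM]; linarith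
  have hM0 : 0 < M := by linarith
  intro ls F An hls hDX hlsM
  rw [← hn] at hDX hlsM
  have hls2 : 2 * ls.length = n := by rw [hls, hn]
  have hDG : ∀ j < n, DG Rd Bd (vy ls j) (F j) := fun j hj => (hDX j hj).dg
  have hPot : Pot (n + 1) R₁ c₀ B₀ (bet / 2) (SrF s F n) (DrF s F n) :=
    pot_mono (hPn (fun j => vy ls j) F hDG) hR1 hR10
  have hbet : 0 < bet := by have := hPot.hp; linarith
  -- the weights
  have hcw : ∀ i < n, M ≤ |(cw (wl ls) i : ℝ)| := hlsM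
  obtain ⟨a, ha⟩ : ∃ a : ℕ → ℤ, a = fun i => if i < n then cw (wl ls) i else ⌈M⌉ := ⟨_, rfl⟩
  have ha1 : ∀ i < n, a i = cw (wl ls) i := fun i hi => by rw [ha]; exact if_pos hi
  have ha2 : ∀ i < n + 1, M ≤ |(a i : ℝ)| := by
    intro i hi
    by_cases h : i < n
    · rw [ha1 i h]; exact hcw i h
    · rw [ha]
      simp only [if_neg h]
      exact (Int.le_ceil M).trans (le_abs_self _)
  have haC : ∀ i < n, C₁ / |(a i : ℝ)| ≤ C₁ / M := fun i hi =>
    div_le_div_of_nonneg_left hC1.le hM0 (ha2 i (by omega))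
  have hCM1 : C₁ / M ≤ 1 / 10 := by
    rw [div_le_div_iff₀ hM0 (by norm_num)]
    linarith
  have hCM2 : C₁ / M ≤ R / 4 := by
    rw [div_le_iff₀ hR] at hM_5
    rw [div_le_div_iff₀ hM0 (by norm_num)]
    linarith
  have hCM3 : n * (C₁ / M) ≤ κ / 8 := by
    rw [div_le_iff₀ hκ0] at hM_6
    rw [← mul_div_assoc, div_le_div_iff₀ hM0 (by norm_num)]
    linarith
  obtain ⟨zz, hz⟩ := HCR (SrF s F n) (DrF s F n) hPot a fun i hi => hM_1.trans (ha2 i hi)
  have hYan : ∀ j < n, ∀ N, Differentiable ℂ (vy ls j N) := fun j hj => (hDG j hj).sub.an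
  have hR1d : R₁ ≤ Rd := hR10.trans hR0d
  obtain ⟨A, cA, hcA, hUX, hAnz, hAd⟩ := HEL (SrF s F n) (DrF s F n) hPot a
    (fun i hi => hM_2.trans (ha2 i hi)) zz hz
    (fun N ψ => (Real.sqrt N : ℂ) ^ n * Wk n N (ψ n) ψ * YP ls N ψ)
    (fun N => ((Sep.const _).mul (fW_sep (by omega) N)).mul
      (YP_sep (by omega) (by rw [hls2]; exact hYan) N))
    (fun r hr hr2 => wxf hS hρ2 hKX hn2 hls2 hDX hr (by linarith) (by linarith)) n (by omega)
    R hR (by linarith)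
  -- the function
  obtain ⟨up, hup⟩ : ∃ up : ℂ → ℕ → ℂ, up = fun χ => Function.update (0 : ℕ → ℂ) n χ := ⟨_, rfl⟩
  have hupn : ∀ χ, up χ n = χ := fun χ => by rw [hup]; exact Function.update_self _ _ _
  have hupi : ∀ χ, ∀ i, i ≠ n → up χ i = 0 := fun χ i hi => by
    rw [hup]; exact Function.update_of_ne hi _ _
  have hupu : ∀ χ w, Function.update (up χ) n w = up w := fun χ w => by
    rw [hup]; exact Function.update_idem _ _ _
  have hupB : ∀ χ ∈ Rc (R₁ / 2) (R₁ / 2), up χ ∈ Bx (n + 1) (R₁ / 2) := by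
    intro χ hχ i hi
    by_cases h : i = n
    · rw [h, hupn]; exact hχ
    · rw [hupi χ i h]; exact rc_zero (by positivity)
  have hyn : ∀ χ ∈ Rc (R₁ / 2) (R₁ / 2), zz n (up χ) n = χ := fun χ hχ => by
    rw [hz.rest n (by omega) (up χ) (hupB χ hχ) n le_rfl, hupn]
  have hysm : ∀ χ ∈ Rc (R₁ / 2) (R₁ / 2), ∀ i < n, ‖zz n (up χ) i‖ ≤ C₁ / M := fun χ hχ i hi =>
    (hz.sm n (by omega) (up χ) (hupB χ hχ) i hi).1.trans (haC i hi)
  have hR1ρ0 : R₁ ≤ ρ₀ := hR1ρ.trans hρ2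
  have hyB1 : ∀ χ ∈ Rc (R₁ / 2) (R₁ / 2), ∀ i < n + 1, zz n (up χ) i ∈ Rc R₁ R₁ := by
    intro χ hχ i hi
    by_cases h : i = n
    · rw [h, hyn χ hχ]
      exact rc_mono (by linarith) hχ
    · exact rc_norm ((hysm χ hχ i (by omega)).trans_lt (by linarith))
  have hyB : ∀ χ ∈ Rc (R₁ / 2) (R₁ / 2), ∀ i < n + 1, zz n (up χ) i ∈ Rc ρ₀ ρ₀ :=
    fun χ hχ i hi => rc_mono hR1ρ0 (hyB1 χ hχ i hi)
  obtain ⟨G, hG⟩ : ∃ G : ℂ → ℂ, G = fun χ => Uj (SrF s F n) a n (zz n (up χ)) := ⟨_, rfl⟩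
  have hGd : ∀ χ ∈ Rc (R₁ / 2) (R₁ / 2), HasDerivAt G (DrF s F n n (zz n (up χ))) χ := by
    intro χ hχ
    have h := hz.der n (by omega) (up χ) (hupB χ hχ) n le_rfl (by omega)
    simp only [hupu, hupn] at h
    rw [hG]
    exact h
  have hopen := rc_open (R₁ / 2) (R₁ / 2)
  have hsub : Rc R R ⊆ Rc (R₁ / 2) (R₁ / 2) := rc_mono (by linarith)
  have hclose : ∀ χ ∈ Rc (R₁ / 2) (R₁ / 2), ∀ m : ℝ, 0 < m → (∀ i < n, m ≤ |(a i : ℝ)|) →
      ‖G χ - n * s 0 0 χ‖ ≤ n * C₁ / m := by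
    intro χ hχ m hm0 hm
    have h := (hz.close n (by omega) (up χ) (hupB χ hχ)).1
    have e1 : SrF s F n (fun i => if i < n then 0 else up χ i) = n * s 0 0 χ := by
      unfold SrF Sr
      have e0 : ∑ j ∈ range n, F j ((fun i => if i < n then 0 else up χ i) j) = 0 := by
        refine sum_eq_zero fun j hj => ?_
        rw [mem_range] at hj
        simp only [if_pos hj]
        exact (hDG j hj).F0
      rw [e0, add_zero]
      have : ∀ j ∈ range n, s ((fun i => if i < n then 0 else up χ i) j)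
          ((fun i => if i < n then 0 else up χ i) ((j + 1) % n))
          ((fun i => if i < n then 0 else up χ i) n) = s 0 0 χ := by
        intro j hj
        rw [mem_range] at hj
        simp only [if_pos hj, if_pos (Nat.mod_lt (j + 1) (by omega : 0 < n)), lt_irrefl, if_false,
          hupn]
      rw [sum_congr rfl this, sum_const, card_range, nsmul_eq_mul]
    rw [e1] at h
    have e2 : ∑ i ∈ range n, C₁ / |(a i : ℝ)| ≤ ∑ _i ∈ range n, C₁ / m :=
      sum_le_sum fun i hi => div_le_div_of_nonneg_left hC1.le hm0 (hm i (mem_range.1 hi))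
    rw [sum_const, card_range, nsmul_eq_mul, ← mul_div_assoc] at e2
    have e3 : G χ = Uj (SrF s F n) a n (zz n (up χ)) := by rw [hG]
    rw [e3]
    exact h.trans e2
  have hpos : ∀ χ ∈ Rc (R₁ / 2) (R₁ / 2), bet / 4 ≤ (G χ).re := by
    intro χ hχ
    rw [hG]
    have := (hz.close n (by omega) (up χ) (hupB χ hχ)).2
    linarith
  -- the far part
  obtain ⟨Cf, hCf, hfar⟩ := Pool.Agent.Y481.far_part n (cw (wl ls))
  have hr_π : r ≤ π := by
    have := Real.pi_gt_three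
    rw [hr]; linarith
  have hRe : ∀ χ ∈ Rc R₃ R₃, χ ∈ Rc (R₁ / 2) (R₁ / 2) → 2 * n * bet - κ / 4 ≤ (G χ).re := by
    intro χ hχ3 hχ
    have h1 := hclose χ hχ M hM0 (fun i hi => ha2 i (by omega))
    rw [mul_div_assoc] at h1
    have h2 := hs3 χ hχ3
    have h3 : ‖(n : ℂ) * s 0 0 χ - n * ((2 * bet : ℝ) : ℂ)‖ ≤ κ / 8 := by
      rw [← mul_sub, norm_mul, Complex.norm_natCast]
      calc (n : ℝ) * ‖s 0 0 χ - ((2 * bet : ℝ) : ℂ)‖ ≤ n * (κ / (8 * n)) :=
            mul_le_mul_of_nonneg_left h2 hnR.le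
        _ = κ / 8 := by field_simp
    have h4 : ‖G χ - n * ((2 * bet : ℝ) : ℂ)‖ ≤ κ / 4 := by
      have := norm_add_le (G χ - n * s 0 0 χ) ((n : ℂ) * s 0 0 χ - n * ((2 * bet : ℝ) : ℂ))
      rw [sub_add_sub_cancel] at this
      linarith
    have h5 := (Complex.abs_re_le_norm _).trans h4
    have h6 : (G χ - n * ((2 * bet : ℝ) : ℂ)).re = (G χ).re - 2 * n * bet := by
      rw [Complex.sub_re, ← Complex.ofReal_natCast, ← Complex.ofReal_mul, Complex.ofReal_re]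
      ring
    rw [h6, abs_le] at h5
    linarith
  have hfarb : ∀ᶠ N : ℕ in atTop, ∀ χ : ℂ, |χ.re| ≤ R → |χ.im| ≤ R →
      ‖XV ls N χ - itN (fun _ => R₁ / 8) a N n (fun ψ => fW n N ψ * YP ls N ψ) (up χ)‖ ≤
        Cf * Real.exp (N * (2 * n * bet - κ + κ / 4)) := by
    have e1 : ∀ᶠ N : ℕ in atTop, 1 / (N : ℝ) ≤ τ :=
      (tendsto_one_div_atTop_nhds_zero_nat).eventually_le_const hτ
    have eY : ∀ᶠ N : ℕ in atTop, ∀ j ∈ range n, ∀ ψ : ℂ, |ψ.re| ≤ π → |ψ.im| ≤ 1 / N →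
        ‖vy ls j N ψ‖ ≤ Real.exp (N * (κ / (8 * n))) := by
      rw [Filter.eventually_all_finset]
      intro j hj
      exact (hDG j (mem_range.1 hj)).sub.gr _ (by positivity)
    filter_upwards [hfar (fun _ => r) (fun _ _ => ⟨hr0, hr_π⟩), HKε, e1, eventually_ge_atTop 1, eY]
      with N h1 h2 h3 h4 hYb χ hχ1 hχ2
    have hN : (0 : ℝ) < N := by exact_mod_cast h4
    have h5 := h1 (fun ψ => Wk n N χ ψ * YP ls N ψ) (Real.exp (N * (2 * n * bet - κ + κ / 4)))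
      (Real.exp_pos _).le
      ((Wk_sep (by omega) N χ).mul (YP_sep (by omega) (by rw [hls2]; exact hYan) N)) (by
        rintro ψ hψ ⟨j, hj, hj2⟩
        have hYP : ‖YP ls N ψ‖ ≤ Real.exp (N * (κ / 8)) := by
          unfold YP
          rw [hls2, norm_prod]
          refine (prod_le_prod (fun _ _ => norm_nonneg _) fun i hi =>
            hYb i hi (ψ i) (hψ i (mem_range.1 hi)).1 (hψ i (mem_range.1 hi)).2).trans ?_
          rw [prod_const, card_range, ← Real.exp_nat_mul]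
          apply Real.exp_le_exp.2
          apply le_of_eq
          field_simp
        have hb : ∀ i ∈ range n, ‖kh N (ψ i) (ψ ((i + 1) % n)) χ‖ ≤
            Real.exp (N * (2 * bet + κ / (8 * n) - if i = j then κ else 0)) := by
          intro i hi
          rw [mem_range] at hi
          have hi2 : (i + 1) % n < n := Nat.mod_lt _ (by omega)
          have hχπ : |χ.re| ≤ π := by
            have := Real.pi_gt_three
            linarith
          refine (h2 (ψ i) (ψ ((i + 1) % n)) χ (hψ i hi).1 ((hψ i hi).2.trans h3) (hψ _ hi2).1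
            ((hψ _ hi2).2.trans h3) hχπ (hχ2.trans hRτ)).trans ?_
          apply Real.exp_le_exp.2
          refine mul_le_mul_of_nonneg_left ?_ hN.le
          have q1 : 0 ≤ c1 * min |(ψ ((i + 1) % n)).re| ρs ^ 2 := by positivity
          have q2 : 0 ≤ c1 * min |χ.re| ρs ^ 2 := by positivity
          have q3 : (if i = j then κ else 0) ≤ c1 * min |(ψ i).re| ρs ^ 2 := by
            split_ifs with hij
            · rw [hκ, hij]
              refine mul_le_mul_of_nonneg_left ?_ hc1.le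
              exact pow_le_pow_left₀ (lt_min hr0 hρs).le (min_le_min_right _ hj2) 2
            · positivity
          linarith
        have hWk : ‖Wk n N χ ψ‖ ≤ Real.exp (∑ i ∈ range n,
            N * (2 * bet + κ / (8 * n) - if i = j then κ else 0)) := by
          unfold Wk
          rw [norm_prod]
          refine (prod_le_prod (fun _ _ => norm_nonneg _) hb).trans ?_
          rw [← Real.exp_sum]
        rw [norm_mul]
        refine (mul_le_mul hWk hYP (norm_nonneg _) (Real.exp_pos _).le).trans ?_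
        rw [← Real.exp_add, ← mul_sum, ← mul_add]
        apply Real.exp_le_exp.2
        refine mul_le_mul_of_nonneg_left ?_ hN.le
        rw [sum_sub_distrib, sum_const, card_range, sum_ite_eq', if_pos (mem_range.2 hj),
          nsmul_eq_mul]
        have : (n : ℝ) * (2 * bet + κ / (8 * n)) = 2 * n * bet + κ / 8 := by field_simp
        rw [this]
        linarith)
    have e2 : XV ls N χ = itI (cw (wl ls)) N n (fun ψ => Wk n N χ ψ * YP ls N ψ) 0 := by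
      unfold XV
      rw [hls2]
    have e3 : itN (fun _ => R₁ / 8) a N n (fun ψ => fW n N ψ * YP ls N ψ) (up χ) =
        itN (fun _ => r) (cw (wl ls)) N n (fun ψ => Wk n N χ ψ * YP ls N ψ) 0 := by
      unfold itN
      refine itG_congr (χ := χ) (fun j hj => ?_) (fun ψ ψ' => fF_eq hls2 ψ ψ') n le_rfl (up χ) 0
        (hupn χ) fun i hi => hupi χ i (by omega)
      rw [ha1 j hj, hr]
    rw [e2, e3]
    exact h5
  -- the expansion
  have hupB' : ∀ χ ∈ Rc R R, up χ ∈ Bx (n + 1) R := by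
    intro χ hχ i hi
    by_cases h : i = n
    · rw [h, hupn]; exact hχ
    · rw [hupi χ i h]; exact rc_zero hR
  have hmain : ∀ N : ℕ, 1 ≤ N → ∀ χ : ℂ,
      (Real.sqrt N : ℂ) ^ n * (-1) ^ (N * n) * itN (fun _ => R₁ / 8) a N n
        (fun ψ => (Real.sqrt N : ℂ) ^ n * Wk n N (ψ n) ψ * YP ls N ψ) (up χ) =
      (N : ℂ) ^ (2 * k) *
        itN (fun _ => R₁ / 8) a N n (fun ψ => fW n N ψ * YP ls N ψ) (up χ) := by
    intro N hN χ
    have h1 := itN_smul (r := fun _ => R₁ / 8) (a := a) hN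
      (fF_sep (n := n) (by omega) hls2 hYan N)
      ((Real.sqrt N : ℂ) ^ n) (j := n) (by omega) (up χ)
    have h2 : (fun ψ : ℕ → ℂ => (Real.sqrt N : ℂ) ^ n * Wk n N (ψ n) ψ * YP ls N ψ) =
        fun ψ => (Real.sqrt N : ℂ) ^ n * (fW n N ψ * YP ls N ψ) := by
      funext ψ
      unfold fW
      ring
    rw [h2, h1]
    have h3 : ((-1 : ℂ)) ^ (N * n) = 1 := by
      rw [hn, show N * (2 * k) = 2 * (N * k) by ring, pow_mul]
      norm_num
    have h4 : (Real.sqrt N : ℂ) ^ n * (Real.sqrt N : ℂ) ^ n = (N : ℂ) ^ (2 * k) := by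
      rw [← mul_pow, ← Complex.ofReal_mul, Real.mul_self_sqrt (Nat.cast_nonneg N), ← hn]
      push_cast
      rfl
    rw [h3, mul_one, ← mul_assoc, h4]
  have hux : UX (fun N χ => Complex.exp (-(N * G χ)) * ((N : ℂ) ^ (2 * k) * XV ls N χ))
      (fun k χ => A k (up χ)) (Rc R R) := by
    intro K
    obtain ⟨CK, hCK⟩ := hUX K
    refine ⟨CK + 1, ?_⟩
    filter_upwards [hCK, hfarb, exp_small (2 * k + K) (half_pos hκ0) Cf, eventually_ge_atTop 1] with
      N h1 h2 h3 h4 χ hχ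
    have hNp : (0 : ℝ) < N := by exact_mod_cast h4
    have e1 := h1 (up χ) (hupB' χ hχ)
    rw [hmain N h4 χ] at e1
    have e2 := h2 χ hχ.1.le hχ.2.le
    have e3 := hRe χ (rc_mono (by linarith) hχ) (hsub hχ)
    have e4 : G χ = Uj (SrF s F n) a n (zz n (up χ)) := by rw [hG]
    rw [← e4] at e1
    have e5 : Complex.exp (-(N * G χ)) * ((N : ℂ) ^ (2 * k) * XV ls N χ) -
        ∑ k ∈ range K, A k (up χ) / (N : ℂ) ^ k =
      (Complex.exp (-(N * G χ)) * ((N : ℂ) ^ (2 * k) *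
          itN (fun _ => R₁ / 8) a N n (fun ψ => fW n N ψ * YP ls N ψ) (up χ)) -
        ∑ k ∈ range K, A k (up χ) / (N : ℂ) ^ k) +
      Complex.exp (-(N * G χ)) * (N : ℂ) ^ (2 * k) *
        (XV ls N χ -
          itN (fun _ => R₁ / 8) a N n (fun ψ => fW n N ψ * YP ls N ψ) (up χ)) := by ring
    rw [e5]
    refine (norm_add_le _ _).trans ?_
    have e6 : ‖Complex.exp (-(N * G χ)) * (N : ℂ) ^ (2 * k) *
        (XV ls N χ - itN (fun _ => R₁ / 8) a N n (fun ψ => fW n N ψ * YP ls N ψ) (up χ))‖ ≤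
          1 / (N : ℝ) ^ K := by
      rw [norm_mul, norm_mul, norm_pow, Complex.norm_natCast, Complex.norm_exp]
      have e7 : (-((N : ℂ) * G χ)).re = -(N * (G χ).re) := by
        rw [Complex.neg_re, ← Complex.ofReal_natCast, Complex.re_ofReal_mul]
      rw [e7, le_div_iff₀ (by positivity)]
      have e8 : Real.exp (-(N * (G χ).re)) ≤ Real.exp (-(N * (2 * n * bet - κ / 4))) := by
        apply Real.exp_le_exp.2
        have := mul_le_mul_of_nonneg_left e3 hNp.le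
        linarith
      calc Real.exp (-(N * (G χ).re)) * (N : ℝ) ^ (2 * k) *
            ‖XV ls N χ -
              itN (fun _ => R₁ / 8) a N n (fun ψ => fW n N ψ * YP ls N ψ) (up χ)‖ * (N : ℝ) ^ K
          ≤ Real.exp (-(N * (2 * n * bet - κ / 4))) * (N : ℝ) ^ (2 * k) *
            (Cf * Real.exp (N * (2 * n * bet - κ + κ / 4))) * (N : ℝ) ^ K := by
              gcongr
        _ = (N : ℝ) ^ (2 * k + K) * (Cf * (Real.exp (-(N * (2 * n * bet - κ / 4))) *
            Real.exp (N * (2 * n * bet - κ + κ / 4)))) := by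
              rw [pow_add]; ring
        _ = (N : ℝ) ^ (2 * k + K) * (Cf * Real.exp (-(N * (κ / 2)))) := by
              rw [← Real.exp_add]
              congr 3
              ring
        _ ≤ 1 := h3
    have e9 : CK / (N : ℝ) ^ K + 1 / (N : ℝ) ^ K = (CK + 1) / (N : ℝ) ^ K := by ring
    rw [← e9]
    exact add_le_add e1 e6
  have hGeq : ∀ χ, G χ = Uj (SrF s F n) a n (zz n (up χ)) := fun χ => by rw [hG]
  refine ⟨G, fun χ => zz n (up χ), fun k χ => A k (up χ), ?_, ?_, ?_, ⟨hux, ?_, ?_⟩, ?_, ?_⟩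
  · intro χ hχ
    exact (hGd χ (hsub hχ)).differentiableAt.differentiableWithinAt
  · intro χ hχ
    have h := hz.ev n (by omega) (up χ) (hupB χ (hsub hχ)) n le_rfl (by omega)
    rw [hupu, hupn] at h
    rw [hGeq, hGeq, h]
  · intro χ hχ
    refine ⟨?_, ?_, hpos χ (hsub hχ)⟩
    · have h1 := (hz.close n (by omega) (up χ) (hupB χ (hsub hχ))).1
      rw [← hGeq] at h1
      have h2 : ∑ i ∈ range n, C₁ / |(a i : ℝ)| ≤ ∑ _i ∈ range n, C₁ := by
        refine sum_le_sum fun i hi => ?_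
        refine div_le_self hC1.le ?_
        exact hM_3.trans (ha2 i (by have := mem_range.1 hi; omega))
      rw [sum_const, card_range, nsmul_eq_mul] at h2
      have h3 : (fun i => if i < n then 0 else up χ i) ∈ Bx (n + 1) R₁ := by
        intro i hi
        by_cases h : i < n
        · simp only [if_pos h]; exact rc_zero hR1
        · simp only [if_neg h]
          have : i = n := by omega
          rw [this, hupn]
          exact rc_mono (by linarith) hχ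
      have h4 := (hPot.bd _ h3).1
      have h5 := norm_le_insert' (G χ) (SrF s F n (fun i => if i < n then 0 else up χ i))
      linarith
    · have h := hz.conc n (by omega) (up χ) (hupB χ (hsub hχ)) n le_rfl (by omega)
      simp only [hupu, hupn] at h
      have e : deriv G =ᶠ[𝓝 χ] fun w => DrF s F n n (zz n (up w)) := by
        filter_upwards [hopen.mem_nhds (hsub hχ)] with w hw
        exact (hGd w hw).deriv
      rw [e.deriv_eq]
      linarith
  · intro k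
    have h := hAd k (up 0) (hupB' 0 (rc_zero hR)) n (by omega)
    simp only [hupu] at h
    exact h
  · intro χ hχ h0
    have h := hAnz (up χ) (hupB' χ hχ)
    rw [h0, norm_zero] at h
    linarith
  · intro χ hχ
    have hχ1 := hsub hχ
    have hn' : ∀ j < 2 * k, j < n := fun j hj => by omega
    refine ⟨?_, ?_, ?_⟩
    · intro j hj
      rw [← hn] at hj ⊢
      have hs1 := hysm χ hχ1 j hj
      have hi : (j + 1) % n < n := Nat.mod_lt _ (by omega)
      refine ⟨rc_norm (hs1.trans_lt (by linarith)), ?_, hs1.trans hCM1, ?_⟩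
      · have h := (hz.sm n (by omega) (up χ) (hupB χ hχ1) j hj).2.2.2
        refine lt_of_lt_of_le ?_ h
        have h0 : (a j : ℝ) ≠ 0 := by
          intro h0
          have := ha2 j (by omega)
          rw [h0, abs_zero] at this
          linarith
        positivity
      · have h := hz.crit n (by omega) (up χ) (hupB χ hχ1) ((j + 1) % n) hi
        have hFd : DifferentiableAt ℂ (F ((j + 1) % n)) (zz n (up χ) ((j + 1) % n)) :=
          (hDG _ hi).Fan.differentiableAt ((rc_open _ _).mem_nhds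
            (rc_mono hR1d (hyB1 χ hχ1 _ (by omega))))
        rw [DrF_mid hJ (by omega) (hyB χ hχ1) hi hFd, Dr_mid hS hn2 (hyB χ hχ1) hj, hyn χ hχ1,
          ha1 _ hi] at h
        rw [← h]
        ring
    · rw [(hGd χ hχ1).deriv, DrF_last, Dr_last hS (by omega) (hyB χ hχ1), hyn χ hχ1, hn]
    · rw [hGeq]
      unfold Uj SrF Sr
      rw [hyn χ hχ1, ← sum_add_distrib, ← sum_add_distrib, hn]
      refine sum_congr rfl fun j hj => ?_
      rw [mem_range] at hj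
      rw [← hn] at hj ⊢
      rw [ha1 j hj]
      ring
  · intro m hm hm0
    have h := hclose 0 (rc_zero (by positivity)) m hm0 fun i hi => by
      rw [ha1 i hi]
      exact hm i (by omega)
    have e : (n : ℂ) * s 0 0 0 = ((4 * k * bet : ℝ) : ℂ) := by
      rw [hS.zero, hn]
      push_cast
      ring
    rw [e] at h
    exact h

end Pool.Agent.Y430.DX
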